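import Mathlib

/-!
# Hamiltonian paths of the hypercube whose consecutive flips differ by `±1`

Hand-in for `MP_77a7aa_co` (Slater's problem): the hypercube `Q_9` has such a Hamiltonian path.
-/

set_option autoImplicit false
set_option maxRecDepth 100000

namespace Pool.Agent.Results.MP_77a7aa_co.PathDimNine

/-! ### Definitions of the problem -/

/-- A Hamiltonian path of the hypercube `Q_n` (vertices: binary strings `Fin n → Bool`), given by the
sequence of its `2^n` vertices, each vertex occurring exactly once, consecutive vertices differing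
in exactly one coordinate. -/
structure HamPath (n : ℕ) where
  /-- the vertices of the path, in order -/
  v : Fin (2 ^ n) → (Fin n → Bool)
  /-- every vertex of `Q_n` is visited exactly once -/
  bij : Function.Bijective v
  /-- the flip sequence -/
  s : Fin (2 ^ n - 1) → Fin n
  /-- the `i`-th and the `i+1`-st vertex differ exactly in the coordinate `s i` -/
  flip : ∀ (i : ℕ) (h : i < 2 ^ n - 1) (j : Fin n),
    v ⟨i, by omega⟩ j ≠ v ⟨i + 1, by omega⟩ j ↔ j = s ⟨i, h⟩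

/-- Any two consecutive entries of the flip sequence differ by `±1`. -/
def HamPath.Slater {n : ℕ} (P : HamPath n) : Prop :=
  ∀ (i : ℕ) (h : i + 1 < 2 ^ n - 1),
    |((P.s ⟨i + 1, h⟩ : ℕ) : ℤ) - ((P.s ⟨i, by omega⟩ : ℕ) : ℤ)| = 1

/-! ### Paths given by a list of flips -/

/-- the vertices, as bit masks, visited from `x` along the flips `l` -/
def verts : List ℕ → ℕ → List ℕ
  | [], x => [x]
  | d :: l, x => x :: verts l (x ^^^ 2 ^ d)

/-- check that the flips `l` from `x` never visit a vertex of the mask `m` or a vertex twice -/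
def chk (n : ℕ) : List ℕ → ℕ → ℕ → Bool
  | [], _, _ => true
  | d :: l, x, m =>
    decide (d < n) && (!(m.testBit (x ^^^ 2 ^ d)) && chk n l (x ^^^ 2 ^ d) (m ||| 2 ^ (x ^^^ 2 ^ d)))

/-- consecutive entries differ by `±1` -/
def adj : List ℕ → Bool
  | [] => true
  | [_] => true
  | a :: b :: l => (decide (a + 1 = b) || decide (b + 1 = a)) && adj (b :: l)

theorem verts_length (l : List ℕ) (x : ℕ) : (verts l x).length = l.length + 1 := by
  induction l generalizing x with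
  | nil => rfl
  | cons d l ih => simp [verts, ih]

theorem verts_zero (l : List ℕ) (x : ℕ) (h : 0 < (verts l x).length) : (verts l x)[0] = x := by
  cases l <;> rfl

theorem verts_succ (l : List ℕ) : ∀ (x i : ℕ) (h : i < l.length)
    (h1 : i < (verts l x).length) (h2 : i + 1 < (verts l x).length),
    (verts l x)[i + 1] = (verts l x)[i] ^^^ 2 ^ l[i] := by
  induction l with
  | nil => intro x i h; simp at h
  | cons d l ih =>
    intro x i h h1 h2
    cases i with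
    | zero =>
      simp only [verts, List.getElem_cons_succ, List.getElem_cons_zero]
      exact verts_zero _ _ _
    | succ i =>
      simp only [verts, List.getElem_cons_succ]
      exact ih _ _ (by simpa using h) _ _

theorem chk_dir (n : ℕ) (l : List ℕ) : ∀ (x m : ℕ), chk n l x m = true → ∀ d ∈ l, d < n := by
  induction l with
  | nil => intro x m _ d hd; simp at hd
  | cons a l ih =>
    intro x m h d hd
    simp only [chk, Bool.and_eq_true, decide_eq_true_eq] at h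
    rcases List.mem_cons.1 hd with rfl | hd
    · exact h.1
    · exact ih _ _ h.2.2 d hd

theorem verts_lt (n : ℕ) (l : List ℕ) : ∀ (x : ℕ), x < 2 ^ n → (∀ d ∈ l, d < n) →
    ∀ y ∈ verts l x, y < 2 ^ n := by
  induction l with
  | nil => intro x hx _ y hy; simp [verts] at hy; omega
  | cons d l ih =>
    intro x hx hd y hy
    rcases List.mem_cons.1 hy with rfl | hy
    · exact hx
    · refine ih _ ?_ (fun e he => hd e (List.mem_cons_of_mem _ he)) y hy
      exact Nat.xor_lt_two_pow hx (Nat.pow_lt_pow_right (by norm_num) (hd d List.mem_cons_self))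

theorem testBit_or_two_pow (m y z : ℕ) :
    (m ||| 2 ^ y).testBit z = (m.testBit z || decide (y = z)) := by
  rw [Nat.testBit_or, Nat.testBit_two_pow]

theorem chk_nodup (n : ℕ) (l : List ℕ) : ∀ (x m : ℕ), chk n l x m = true → m.testBit x = true →
    (verts l x).Nodup ∧ ∀ y ∈ verts l x, y ≠ x → m.testBit y = false := by
  induction l with
  | nil => intro x m _ _; simp [verts]
  | cons d l ih =>
    intro x m h hx
    simp only [chk, Bool.and_eq_true, decide_eq_true_eq, Bool.not_eq_true'] at h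
    obtain ⟨-, h1, h2⟩ := h
    obtain ⟨i1, i2⟩ := ih (x ^^^ 2 ^ d) _ h2 (by rw [testBit_or_two_pow]; simp)
    have key : ∀ y ∈ verts l (x ^^^ 2 ^ d), m.testBit y = false := by
      intro y hy
      by_cases hyx : y = x ^^^ 2 ^ d
      · rw [hyx]; exact h1
      · have := i2 y hy hyx
        rw [testBit_or_two_pow] at this
        simp only [Bool.or_eq_false_iff] at this
        exact this.1
    refine ⟨List.nodup_cons.2 ⟨fun hmem => ?_, i1⟩, ?_⟩
    · rw [key x hmem] at hx; exact absurd hx (by simp)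
    · intro y hy hyx
      rcases List.mem_cons.1 hy with rfl | hy
      · exact absurd rfl hyx
      · exact key y hy

theorem adj_get (l : List ℕ) : adj l = true → ∀ (i : ℕ) (h : i + 1 < l.length),
    l[i] + 1 = l[i + 1] ∨ l[i + 1] + 1 = l[i] := by
  induction l with
  | nil => intro _ i h; simp at h
  | cons a l ih =>
    intro hl i h
    cases l with
    | nil => simp at h
    | cons b l =>
      simp only [adj, Bool.and_eq_true, Bool.or_eq_true, decide_eq_true_eq] at hl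
      cases i with
      | zero => simpa using hl.1
      | succ i => exact ih hl.2 i (by simpa using h)

theorem testBit_inj_of_lt {n x y : ℕ} (hx : x < 2 ^ n) (hy : y < 2 ^ n)
    (h : ∀ j : Fin n, x.testBit j = y.testBit j) : x = y := by
  apply Nat.eq_of_testBit_eq
  intro i
  by_cases hi : i < n
  · exact h ⟨i, hi⟩
  · rw [Nat.testBit_lt_two_pow (lt_of_lt_of_le hx (Nat.pow_le_pow_right (by norm_num) (by omega))),
      Nat.testBit_lt_two_pow (lt_of_lt_of_le hy (Nat.pow_le_pow_right (by norm_num) (by omega)))]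

theorem exists_path (n : ℕ) (L : List ℕ) (hlen : L.length + 1 = 2 ^ n)
    (hc : chk n L 0 1 = true) (ha : adj L = true) : ∃ P : HamPath n, P.Slater := by
  have hdir := chk_dir n L 0 1 hc
  have hlt := verts_lt n L 0 (by positivity) hdir
  have hnd := (chk_nodup n L 0 1 hc (by decide)).1
  have hvl : (verts L 0).length = 2 ^ n := by rw [verts_length, hlen]
  let v : Fin (2 ^ n) → (Fin n → Bool) := fun i j => ((verts L 0)[(i : ℕ)]'(by rw [hvl]; exact i.2)).testBit j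
  have hinj : Function.Injective v := by
    intro a b hab
    have h1 : (verts L 0)[(a : ℕ)]'(by rw [hvl]; exact a.2)
        = (verts L 0)[(b : ℕ)]'(by rw [hvl]; exact b.2) :=
      testBit_inj_of_lt (hlt _ (List.getElem_mem _)) (hlt _ (List.getElem_mem _))
        (fun j => congrFun hab j)
    exact Fin.ext ((List.Nodup.getElem_inj_iff hnd).1 h1)
  have hbij : Function.Bijective v :=
    (Fintype.bijective_iff_injective_and_card v).2 ⟨hinj, by simp⟩
  refine ⟨{ v := v, bij := hbij, s := fun i => ⟨L[(i : ℕ)]'(by have := i.2; omega),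
              hdir _ (List.getElem_mem _)⟩, flip := ?_ }, ?_⟩
  · intro i h j
    have e := verts_succ L 0 i (by omega) (by rw [hvl]; omega) (by rw [hvl]; omega)
    simp only [v, e, Nat.testBit_xor, Nat.testBit_two_pow]
    rw [Fin.ext_iff]
    by_cases hj : L[i] = (j : ℕ)
    · simp [hj]
    · simp [hj, Ne.symm hj]
  · intro i h
    have := adj_get L ha i (by omega)
    rcases this with h1 | h1
    · simp only [← h1]; push_cast; norm_num
    · simp only [← h1]; push_cast; norm_num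

/-- The flip sequence (coordinates numbered from `0`). -/
def flips9 : List ℕ :=
  [5, 6, 7, 6, 5, 4, 3, 4, 5, 4, 3, 2, 3, 4, 5, 4, 3, 4, 5, 6, 5, 4, 3, 2, 3, 4, 3, 2, 1, 2, 3,
   4, 3, 2, 3, 4, 5, 4, 3, 2, 1, 2, 3, 2, 1, 0, 1, 2, 3, 2, 1, 2, 3, 4, 5, 4, 3, 2, 3, 4, 3, 2,
   1, 2, 3, 4, 3, 2, 3, 4, 5, 6, 5, 4, 3, 4, 5, 4, 3, 2, 3, 4, 5, 4, 3, 4, 5, 6, 7, 6, 5, 4, 3,
   4, 5, 6, 7, 8, 7, 6, 5, 4, 3, 4, 5, 6, 7, 6, 5, 4, 3, 4, 5, 4, 3, 2, 3, 4, 5, 4, 3, 4, 5, 6,
   5, 4, 3, 2, 3, 4, 3, 2, 1, 2, 3, 4, 3, 2, 3, 4, 5, 4, 3, 2, 1, 2, 3, 2, 1, 0, 1, 2, 3, 2, 1,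
   2, 3, 4, 5, 4, 3, 2, 3, 4, 3, 2, 1, 2, 3, 4, 3, 2, 3, 4, 5, 6, 5, 4, 3, 4, 5, 4, 3, 2, 3, 4,
   5, 4, 3, 4, 5, 6, 7, 6, 5, 4, 3, 4, 5, 6, 7, 8, 7, 6, 5, 4, 3, 2, 3, 4, 5, 6, 7, 8, 7, 6, 5,
   4, 3, 4, 5, 6, 5, 4, 3, 2, 3, 4, 3, 2, 1, 2, 3, 4, 3, 2, 3, 4, 5, 4, 3, 2, 1, 2, 3, 2, 1, 0,
   1, 2, 3, 2, 1, 2, 3, 4, 5, 4, 3, 2, 3, 4, 3, 2, 1, 2, 3, 4, 3, 2, 3, 4, 5, 6, 5, 4, 3, 4, 5,
   6, 7, 8, 7, 6, 5, 4, 3, 4, 5, 4, 3, 2, 1, 2, 3, 2, 1, 0, 1, 2, 3, 2, 1, 2, 3, 4, 5, 6, 5, 4,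
   3, 2, 1, 2, 3, 2, 1, 0, 1, 2, 3, 2, 1, 2, 3, 4, 5, 4, 3, 2, 3, 4, 3, 2, 1, 2, 3, 4, 3, 2, 3,
   4, 5, 6, 5, 4, 3, 4, 5, 6, 7, 6, 5, 4, 3, 4, 5, 4, 3, 2, 3, 4, 5, 4, 3, 4, 5, 6, 7, 6, 5, 4,
   3, 4, 5, 6, 7, 8, 7, 6, 5, 4, 3, 4, 5, 6, 7, 6, 5, 4, 3, 4, 5, 4, 3, 2, 3, 4, 5, 4, 3, 4, 5,
   6, 7, 6, 5, 4, 3, 4, 5, 4, 3, 2, 1, 2, 3, 2, 1, 0, 1, 2, 3, 2, 1, 2, 3, 4, 5, 4, 3, 4, 5, 6,
   7, 6, 5, 4, 3, 4, 5, 4, 3, 2, 3, 4, 5, 4, 3, 4, 5, 6, 7, 6, 5, 4, 3, 4, 5, 6, 7, 8, 7, 6, 5,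
   4, 3, 4, 5, 6, 7, 6, 5, 4, 3, 4, 5, 4, 3, 2, 3, 4, 5, 4, 3, 4, 5, 6, 7, 6, 5, 4, 3, 4, 5, 6,
   5, 4, 3, 2, 3, 4, 3, 2, 1, 2, 3, 4, 3, 2, 3]

theorem result : ∃ P : HamPath 9, P.Slater :=
  exists_path 9 flips9 (by decide +kernel) (by decide +kernel) (by decide +kernel)

end Pool.Agent.Results.MP_77a7aa_co.PathDimNine
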